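import Mathlib.Tactic

/-!
# One diagonal suffices: the combinatorial part
-/

set_option autoImplicit false

namespace Pool.Agent.R904.HB

structure GDiag (Ω A : Type*) [AddCommGroup A] where
  dim : Ω → ℤ
  prod : Ω → Ω
  dim_prod : ∀ X, dim (prod X) = dim X + 1
  G : Ω → ℤ → Prop
  e : Ω → ℤ → A
  G_prod : ∀ X i, G (prod X) i → G X i ∧ G X (i - 1)
  e_prod : ∀ X i, G (prod X) i → e (prod X) i = e X i + e X (i - 1)
  e_top : ∀ X i, dim X < i → e X i = 0

namespace GDiag

variable {Ω A : Type*} [AddCommGroup A] (D : GDiag Ω A)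

/-- symmetry of the defects, if the diagonal `dim X + c = 2 i` is fine -/
theorem sym (c : ℤ) (h : ∀ X i, D.dim X + c = 2 * i → D.G X i ∧ D.e X i = 0) (n : ℕ) :
    ∀ X m, D.dim X + c = 2 * m + n → D.G X m ∧ D.G X (D.dim X + c - m) ∧
      D.e X m + D.e X (D.dim X + c - m) = 0 := by
  induction n using Nat.strong_induction_on with
  | _ n ih =>
  intro X m hm
  match n, ih, hm with
  | 0, _, hm =>
    have h1 := h X m (by simpa using hm)
    have h2 : D.dim X + c - m = m := by push_cast at hm; omega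
    rw [h2]
    exact ⟨h1.1, h1.1, by rw [h1.2, add_zero]⟩
  | 1, _, hm =>
    have h1 := h (D.prod X) (m + 1) (by rw [D.dim_prod]; push_cast at hm; omega)
    have h2 : D.dim X + c - m = m + 1 := by push_cast at hm; omega
    have h3 := D.G_prod _ _ h1.1
    have h4 := D.e_prod _ _ h1.1
    rw [h2]
    have h5 : m + 1 - 1 = m := by omega
    rw [h5] at h3 h4
    exact ⟨h3.2, h3.1, by rw [add_comm, ← h4, h1.2]⟩
  | n + 2, ih, hm =>
    have h1 := ih (n + 1) (by omega) (D.prod X) (m + 1)
      (by rw [D.dim_prod]; push_cast at hm ⊢; omega)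
    have h2 := ih n (by omega) X (m + 1) (by push_cast at hm ⊢; omega)
    rw [D.dim_prod] at h1
    have e1 : D.dim X + 1 + c - (m + 1) = D.dim X + c - m := by omega
    rw [e1] at h1
    obtain ⟨g1, g2, g3⟩ := h1
    have a1 := D.G_prod _ _ g1
    have a2 := D.G_prod _ _ g2
    have b1 := D.e_prod _ _ g1
    have b2 := D.e_prod _ _ g2
    have e2 : m + 1 - 1 = m := by omega
    have e3 : D.dim X + c - m - 1 = D.dim X + c - (m + 1) := by omega
    rw [e2] at a1 b1
    rw [e3] at a2 b2
    refine ⟨a1.2, a2.1, ?_⟩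
    rw [b1, b2] at g3
    have h4 := h2.2.2
    calc D.e X m + D.e X (D.dim X + c - m)
        = (D.e X (m + 1) + D.e X m + (D.e X (D.dim X + c - m) + D.e X (D.dim X + c - (m + 1)))) -
          (D.e X (m + 1) + D.e X (D.dim X + c - (m + 1))) := by abel
      _ = 0 := by rw [g3, h4, sub_zero]

theorem sym' (c : ℤ) (h : ∀ X i, D.dim X + c = 2 * i → D.G X i ∧ D.e X i = 0) (X : Ω) (m : ℤ) :
    D.G X m ∧ D.e X m + D.e X (D.dim X + c - m) = 0 := by
  rcases le_total (2 * m) (D.dim X + c) with h1 | h1
  · obtain ⟨n, hn⟩ := Int.eq_ofNat_of_zero_le (sub_nonneg.2 h1)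
    have := D.sym c h n X m (by omega)
    exact ⟨this.1, this.2.2⟩
  · obtain ⟨n, hn⟩ := Int.eq_ofNat_of_zero_le (sub_nonneg.2 h1)
    have := D.sym c h n X (D.dim X + c - m) (by omega)
    have e : D.dim X + c - (D.dim X + c - m) = m := by omega
    rw [e] at this
    exact ⟨this.2.1, by rw [add_comm]; exact this.2.2⟩

/-- If one diagonal is fine, the defects are `2`-torsion, and zero if the diagonal is not central. -/
theorem one (c : ℤ) (h : ∀ X i, D.dim X + c = 2 * i → D.G X i ∧ D.e X i = 0)
    (hd : ∀ X i, D.G X i → D.e X i = D.e X (D.dim X + 1 - i)) (X : Ω) (i : ℤ) :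
    D.G X i ∧ D.e X i + D.e X i = 0 ∧ (c ≠ 1 → D.e X i = 0) := by
  have hG : ∀ j, D.G X j := fun j => (D.sym' c h X j).1
  have key : ∀ j, D.e X j = - D.e X (j + (1 - c)) := by
    intro j
    have h1 := (D.sym' c h X j).2
    have h2 := hd X (D.dim X + c - j) (hG _)
    have e : D.dim X + 1 - (D.dim X + c - j) = j + (1 - c) := by omega
    rw [e] at h2
    rw [h2] at h1
    exact eq_neg_of_add_eq_zero_left h1
  have hne : c ≠ 1 → D.e X i = 0 := by
    intro hc
    have key2 : ∀ t : ℤ, 0 < t → (∀ j, D.e X j = - D.e X (j + t)) → D.e X i = 0 := by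
      intro t ht hk
      have h1 : ∀ (n : ℕ) (j : ℤ), D.e X (j + n * t) = 0 → D.e X j = 0 := by
        intro n
        induction n with
        | zero => intro j hj; simpa using hj
        | succ n ih =>
          intro j hj
          apply ih
          rw [hk]
          have e : j + n * t + t = j + (n + 1 : ℕ) * t := by push_cast; ring
          rw [e, hj, neg_zero]
      obtain ⟨n, hn⟩ := exists_nat_gt (D.dim X - i)
      have hn' : D.dim X - i < n := by exact_mod_cast hn
      apply h1 n
      apply D.e_top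
      by_cases hn0 : 0 ≤ (n : ℤ)
      · nlinarith
      · omega
    rcases lt_or_gt_of_ne hc with h1 | h1
    · exact key2 (1 - c) (by omega) key
    · refine key2 (c - 1) (by omega) fun j => ?_
      have h2 := key (j + (c - 1))
      have e : j + (c - 1) + (1 - c) = j := by omega
      rw [e] at h2
      rw [h2, neg_neg]
  refine ⟨hG i, ?_, hne⟩
  by_cases hc : c = 1
  · have h1 := key i
    rw [hc] at h1
    have e : i + (1 - 1) = i := by omega
    rw [e] at h1
    nth_rewrite 1 [h1]
    rw [neg_add_cancel]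
  · rw [hne hc, add_zero]

end GDiag

end Pool.Agent.R904.HB
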