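import Pool.Agent.R904.RK.Defs

/-!
# Beilinson's conjecture on heights and central values: definitions

`C` is the theory of Chow groups with rational coefficients, `W` is a Weil cohomology theory, `E` are
the Euler factors, `D` are the heights and the periods. `hom0 W X p` is `V^p = CH^p(X)^0 ⊗ ℚ`.
-/

set_option autoImplicit false

open CategoryTheory AlgebraicGeometry
open Pool.Agent.H914 Pool.Agent.H914.VarClass Pool.Agent.H914.VarClass.Obj
open Pool.Agent.R903 Pool.Agent.R904.RK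

universe u v w

namespace Pool.Agent.R904.HB

variable {k : Type u} [Field k] {𝒱 : VarClass k} {C : ChowTheory.{u, v} 𝒱}

/-- The condition (H2) for `X` and all codimensions, the height pairing (only its values on
homologically trivial classes matter) and the period `det Π` of `H^(2m-1)(X)` at `s = m`. -/
structure HeightData (C : ChowTheory.{u, v} 𝒱) where
  H2 : 𝒱.Obj → Prop
  ht : ∀ X, C.CH X →ₗ[ℚ] C.CH X →ₗ[ℚ] ℝ
  per : 𝒱.Obj → ℕ → ℝ

section Alg

variable {A : Type v} [CommRing A] [Algebra ℚ A] {A' : Type v} [CommRing A'] [Algebra ℚ A']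

/-- On the ideal `I` the pairing `B` is symmetric, and the multiplication by an element of `A` is
self-adjoint. -/
structure IsSelfAdj (I : Ideal A) (B : A →ₗ[ℚ] A →ₗ[ℚ] ℝ) : Prop where
  symm : ∀ x ∈ I, ∀ y ∈ I, B x y = B y x
  mul : ∀ x ∈ I, ∀ y ∈ I, ∀ z, B (z * x) y = B x (z * y)

/-- `f : A → A'` and `g : A' → A` are adjoint on the ideals `I` and `I'`. -/
def IsAdj (I : Ideal A) (I' : Ideal A') (B : A →ₗ[ℚ] A →ₗ[ℚ] ℝ) (B' : A' →ₗ[ℚ] A' →ₗ[ℚ] ℝ)
    (f : A →ₗ[ℚ] A') (g : A' →ₐ[ℚ] A) : Prop :=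
  ∀ x ∈ I, ∀ y ∈ I', B' (f x) y = B x (g y)

/-- Every element of `A` has the form `f a + f b * c`. -/
def IsGen (f : A' →ₐ[ℚ] A) (c : A) : Prop := ∀ z, ∃ a b, z = f a + f b * c

end Alg

/-- The formal properties of the height pairing on homologically trivial classes: it is symmetric,
the multiplication by a class is self-adjoint, and push-forward and pull-back are adjoint. -/
structure IsHeight (W : WeilTheory.{u, v, w} C) (D : HeightData C) : Prop where
  self : ∀ X, D.H2 X → IsSelfAdj (RingHom.ker (W.cl X)) (D.ht X)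
  adj : ∀ {X Y : 𝒱.Obj} (f : X ⟶ Y), D.H2 X → D.H2 Y →
    IsAdj (RingHom.ker (W.cl X)) (RingHom.ker (W.cl Y)) (D.ht X) (D.ht Y) (C.push f) (C.pull f)

/-- `L` behaves like the projective line. -/
structure IsLine' (C : ChowTheory.{u, v} 𝒱) (E : EulerFactors 𝒱) (L : 𝒱.Obj) : Prop where
  dim : L.dim = 1
  /-- `CH(X × L) = CH(X) ⊕ CH(X) h`, where `h` is the class of a point of `L` -/
  cycles : ∃ h ∈ C.gr L 1, C.deg L h = 1 ∧
    ∀ X : 𝒱.Obj, IsGen (C.pull (fst X L)) (C.pull (snd X L) h)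
  /-- `H^j(X × L) = H^j(X) ⊕ H^(j-2)(X)(-1)` -/
  factor : ∀ v (X : 𝒱.Obj) j, E.P v (X.prod L) (j + 2) =
    E.P v X (j + 2) * EulerFactors.twist (E.q v) (E.P v X j)
  factor_low : ∀ v (X : 𝒱.Obj) j, j < 2 → E.P v (X.prod L) j = E.P v X j

/-- `a` and `b` agree up to a nonzero rational factor. -/
def EqQ (a b : ℂ) : Prop := ∃ q : ℚ, q ≠ 0 ∧ a = q * b

/-- The formal properties of the periods: `H^(2m+1)(X × L) = H^(2m+1)(X) ⊕ H^(2m-1)(X)(-1)` and hard
Lefschetz, compatibly with the rational structures. -/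
structure IsPeriod (D : HeightData C) (L : 𝒱.Obj) : Prop where
  ne_zero : ∀ X m, D.per X m ≠ 0
  zero : ∀ X, EqQ (D.per X 0) 1
  top : ∀ (X : 𝒱.Obj) m, X.dim < m → EqQ (D.per X m) 1
  prod : ∀ (X : 𝒱.Obj) m, EqQ (D.per (X.prod L) (m + 1)) (D.per X (m + 1) * D.per X m)
  dual : ∀ (X : 𝒱.Obj) m, 1 ≤ m → m ≤ X.dim → EqQ (D.per X (X.dim + 1 - m)) (D.per X m)

section Alg

variable {A : Type v} [AddCommGroup A] [Module ℚ A]

/-- The map `ℝ ⊗ V → Hom(V', ℝ)` given by the pairing `B` is injective: elements of `V` which are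
linearly independent over `ℚ` give functionals on `V'` which are linearly independent over `ℝ`. -/
def RealInj (B : A →ₗ[ℚ] A →ₗ[ℚ] ℝ) (V V' : Submodule ℚ A) : Prop :=
  ∀ (n : ℕ) (v : Fin n → V), LinearIndependent ℚ v →
    LinearIndependent ℝ fun i => (B (v i)).domRestrict V'

/-- The pairing `B` between `V` and `V'` is non-degenerate (over `ℝ`). -/
def Nondeg (B : A →ₗ[ℚ] A →ₗ[ℚ] ℝ) (V V' : Submodule ℚ A) : Prop :=
  RealInj B V V' ∧ RealInj B.flip V' V

/-- (i) `V = V^m` has finite dimension. -/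
def PartI (V : Submodule ℚ A) : Prop := Module.Finite ℚ V

/-- (iii) The dimension of `V` is the order of `F` at `m`. -/
def PartIII (V : Submodule ℚ A) (m : ℂ) (F : ℂ → ℂ) : Prop :=
  meromorphicOrderAt F m = ((Module.finrank ℚ V : ℤ) : WithTop ℤ)

/-- (iv) The leading coefficient of `F` at `m` is the product of the period `p` and the determinant
of the pairing in bases of `V` and `V'`, up to `ℚ^*`. -/
def PartIV (B : A →ₗ[ℚ] A →ₗ[ℚ] ℝ) (V V' : Submodule ℚ A) (p : ℝ) (m : ℂ) (F : ℂ → ℂ) : Prop :=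
  ∀ (r : ℕ) (b : Module.Basis (Fin r) ℚ V) (b' : Module.Basis (Fin r) ℚ V'),
    EqQ (meromorphicTrailingCoeffAt F m) (p * (Matrix.of fun i j => B (b i) (b' j)).det : ℝ)

/-- The square of (iv). -/
def PartIVSq (B : A →ₗ[ℚ] A →ₗ[ℚ] ℝ) (V V' : Submodule ℚ A) (p : ℝ) (m : ℂ) (F : ℂ → ℂ) : Prop :=
  ∀ (r : ℕ) (b : Module.Basis (Fin r) ℚ V) (b' : Module.Basis (Fin r) ℚ V'),
    EqQ (meromorphicTrailingCoeffAt F m ^ 2)
      ((p * (Matrix.of fun i j => B (b i) (b' j)).det) ^ 2 : ℝ)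

end Alg

variable (W : WeilTheory.{u, v, w} C) (E : EulerFactors 𝒱) (D : HeightData C)

/-- (i) `V^m` has finite dimension, (ii) the height pairing between `V^m` and `V^(n+1-m)`,
`n = dim X`, is non-degenerate, (iii) the dimension of `V^m` is the order of `L(H^(2m-1)(X), s)` at
`s = m`. -/
def Ranks (X : 𝒱.Obj) (m : ℕ) : Prop :=
  PartI (hom0 W X m) ∧ Nondeg (D.ht X) (hom0 W X m) (hom0 W X (X.dim + 1 - m)) ∧
    ∀ F, E.IsContinuation X (2 * m - 1) m F → PartIII (hom0 W X m) m F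

/-- (i), (ii), (iii) and (iv) -/
def Leading (X : 𝒱.Obj) (m : ℕ) : Prop :=
  Ranks W E D X m ∧ ∀ F, E.IsContinuation X (2 * m - 1) m F →
    PartIV (D.ht X) (hom0 W X m) (hom0 W X (X.dim + 1 - m)) (D.per X m) m F

/-- The square of (iv). -/
def LeadingSq (X : 𝒱.Obj) (m : ℕ) : Prop :=
  ∀ F, E.IsContinuation X (2 * m - 1) m F →
    PartIVSq (D.ht X) (hom0 W X m) (hom0 W X (X.dim + 1 - m)) (D.per X m) m F

/-- The varieties in `S` which satisfy (H1) for all odd degrees and (H2) for all codimensions. -/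
def Adm (S : Set 𝒱.Obj) : Set 𝒱.Obj := {X | X ∈ S ∧ E.Continues X ∧ D.H2 X}

end Pool.Agent.R904.HB
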