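import Pool.Agent.R904.HB.Lin
import Pool.Agent.R904.RK.Cyc

/-!
# Heights on `X × ℙ¹`
-/

set_option autoImplicit false

open CategoryTheory AlgebraicGeometry
open Pool.Agent.H914 Pool.Agent.H914.VarClass Pool.Agent.H914.VarClass.Obj
open Pool.Agent.R903 Pool.Agent.R904.RK

universe u v w

namespace Pool.Agent.R904.HB

variable {k : Type u} [Field k] {𝒱 : VarClass k} {C : ChowTheory.{u, v} 𝒱}
  {W : WeilTheory.{u, v, w} C} {E : EulerFactors 𝒱} {D : HeightData C} {L : 𝒱.Obj}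

lemma IsLine'.isLine (h : IsLine' C E L) : IsLine C E L :=
  ⟨h.dim, h.cycles, h.factor, h.factor_low⟩

lemma IsHeight.symm (hD : IsHeight W D) (X : 𝒱.Obj) (h : D.H2 X) (x y : C.CH X)
    (hx : W.cl X x = 0) (hy : W.cl X y = 0) : D.ht X x y = D.ht X y x :=
  (hD.self X h).symm x hx y hy

lemma IsHeight.mul (hD : IsHeight W D) (X : 𝒱.Obj) (h : D.H2 X) (x y z : C.CH X)
    (hx : W.cl X x = 0) (hy : W.cl X y = 0) : D.ht X (z * x) y = D.ht X x (z * y) :=
  (hD.self X h).mul x hx y hy z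

lemma IsHeight.adj' (hD : IsHeight W D) {X Y : 𝒱.Obj} (f : X ⟶ Y) (h : D.H2 X) (h' : D.H2 Y)
    (x : C.CH X) (y : C.CH Y) (hx : W.cl X x = 0) (hy : W.cl Y y = 0) :
    D.ht Y (C.push f x) y = D.ht X x (C.pull f y) :=
  hD.adj f h h' x hx y hy

section Line

variable (hL : IsLine C E L)
include hL

/-- the class of a point of the line -/
noncomputable def pt : C.CH L := hL.cycles.choose

lemma pt_mem : pt hL ∈ C.gr L 1 := hL.cycles.choose_spec.1
lemma deg_pt : C.deg L (pt hL) = 1 := hL.cycles.choose_spec.2.1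
lemma exists_eq (X : 𝒱.Obj) (z : C.CH (X.prod L)) :
    ∃ a b, z = C.pull (fst X L) a + C.pull (fst X L) b * C.pull (snd X L) (pt hL) :=
  hL.cycles.choose_spec.2.2 X z

lemma push_pull (X : 𝒱.Obj) (a : C.CH X) : C.push (fst X L) (C.pull (fst X L) a) = 0 := by
  have := C.push_mul (fst X L) 1 a
  rw [one_mul, push_one hL, zero_mul] at this
  exact this

lemma push_pull_pt (X : 𝒱.Obj) (b : C.CH X) :
    C.push (fst X L) (C.pull (snd X L) (pt hL) * C.pull (fst X L) b) = b := by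
  rw [C.push_mul, ChowTheory.push_fst_pull_snd, deg_pt, map_one, one_mul]

lemma pt_mul_pt (X : 𝒱.Obj) :
    C.pull (snd X L) (pt hL) * C.pull (snd X L) (pt hL) = 0 := by
  rw [← C.pull_mul]
  have h1 : pt hL * pt hL ∈ C.gr L (1 + 1) := C.mul_mem (pt_mem hL) (pt_mem hL)
  rw [C.gr_eq_bot L (1 + 1) (by rw [hL.dim]; norm_num), Submodule.mem_bot] at h1
  rw [h1, map_zero]

lemma dim_line (X : 𝒱.Obj) : (X.prod L).dim = X.dim + 1 := by rw [dim_prod, hL.dim]

variable (W) in
/-- `a ↦ fst^* a` -/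
noncomputable def inA (_ : IsLine C E L) (X : 𝒱.Obj) (n : ℕ) : hom0 W X n →ₗ[ℚ] hom0 W (X.prod L) n where
  toFun a := ⟨C.pull (fst X L) a.1, by
    have h := mem_hom0.1 a.2
    exact mem_hom0.2 ⟨C.pull_mem _ h.1, by rw [W.cl_pull, h.2, map_zero]⟩⟩
  map_add' := by intro x y; apply Subtype.ext; simp
  map_smul' := by intro c x; apply Subtype.ext; simp

variable (W) in
/-- `b ↦ pt · fst^* b` -/
noncomputable def inB (X : 𝒱.Obj) (n : ℕ) : hom0 W X n →ₗ[ℚ] hom0 W (X.prod L) (n + 1) where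
  toFun a := ⟨C.pull (snd X L) (pt hL) * C.pull (fst X L) a.1, by
    have h := mem_hom0.1 a.2
    refine mem_hom0.2 ⟨?_, by rw [map_mul, W.cl_pull _ a.1, h.2, map_zero, mul_zero]⟩
    rw [add_comm n 1]
    exact C.mul_mem (C.pull_mem _ (pt_mem hL)) (C.pull_mem _ h.1)⟩
  map_add' := by intro x y; apply Subtype.ext; simp [mul_add]
  map_smul' := by intro c x; apply Subtype.ext; simp

variable (W) in
/-- `y ↦ fst_* y` -/
noncomputable def outB (X : 𝒱.Obj) (n : ℕ) : hom0 W (X.prod L) (n + 1) →ₗ[ℚ] hom0 W X n where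
  toFun y := ⟨C.push (fst X L) y.1, by
    have h := mem_hom0.1 y.2
    refine mem_hom0.2 ⟨C.push_mem _ h.1 (by rw [dim_line hL]; omega), ?_⟩
    rw [W.cl_push, h.2, map_zero]⟩
  map_add' := by intro x y; apply Subtype.ext; simp
  map_smul' := by intro c x; apply Subtype.ext; simp

variable (W) in
/-- `y ↦ fst_* (pt · y)` -/
noncomputable def outA (X : 𝒱.Obj) (n : ℕ) : hom0 W (X.prod L) n →ₗ[ℚ] hom0 W X n where
  toFun y := ⟨C.push (fst X L) (C.pull (snd X L) (pt hL) * y.1), by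
    have h := mem_hom0.1 y.2
    refine mem_hom0.2 ⟨C.push_mem _ (C.mul_mem (C.pull_mem _ (pt_mem hL)) h.1)
      (by rw [dim_line hL]; omega), ?_⟩
    rw [W.cl_push, map_mul, h.2, mul_zero, map_zero]⟩
  map_add' := by intro x y; apply Subtype.ext; simp [mul_add]
  map_smul' := by intro c x; apply Subtype.ext; simp

lemma outA_inA (X : 𝒱.Obj) (n : ℕ) (a : hom0 W X n) : outA W hL X n (inA W hL X n a) = a :=
  Subtype.ext (push_pull_pt hL X a.1)

lemma outB_inB (X : 𝒱.Obj) (n : ℕ) (b : hom0 W X n) : outB W hL X n (inB W hL X n b) = b :=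
  Subtype.ext (push_pull_pt hL X b.1)

lemma outB_inA (X : 𝒱.Obj) (n : ℕ) (a : hom0 W X (n + 1)) : outB W hL X n (inA W hL X (n + 1) a) = 0 :=
  Subtype.ext (push_pull hL X a.1)

lemma outA_inB (X : 𝒱.Obj) (n : ℕ) (b : hom0 W X n) : outA W hL X (n + 1) (inB W hL X n b) = 0 := by
  apply Subtype.ext
  change C.push (fst X L) (C.pull (snd X L) (pt hL) *
    (C.pull (snd X L) (pt hL) * C.pull (fst X L) b.1)) = 0
  rw [← mul_assoc, pt_mul_pt hL, zero_mul, map_zero]

/-- `V^(n+1)(X × ℙ¹) = V^(n+1)(X) ⊕ V^n(X)` -/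
noncomputable def eqv (X : 𝒱.Obj) (n : ℕ) :
    (hom0 W X (n + 1) × hom0 W X n) ≃ₗ[ℚ] hom0 W (X.prod L) (n + 1) :=
  LinearEquiv.ofLinearMap ((inA W hL X (n + 1)).coprod (inB W hL X n))
    ((outA W hL X (n + 1)).prod (outB W hL X n))
    (by
      apply LinearMap.ext
      intro z
      obtain ⟨a, b, hab⟩ := exists_eq hL X z.1
      apply Subtype.ext
      change C.pull (fst X L) (C.push (fst X L) (C.pull (snd X L) (pt hL) * z.1)) +
        C.pull (snd X L) (pt hL) * C.pull (fst X L) (C.push (fst X L) z.1) = z.1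
      rw [hab, mul_add, mul_comm (C.pull (fst X L) b) _, ← mul_assoc, pt_mul_pt hL, zero_mul,
        add_zero, push_pull_pt hL, map_add, push_pull hL, zero_add,
        push_pull_pt hL])
    (by
      apply LinearMap.ext
      rintro ⟨a, b⟩
      apply Prod.ext
      · change outA W hL X (n + 1) (inA W hL X (n + 1) a + inB W hL X n b) = a
        rw [map_add, outA_inA, outA_inB, add_zero]
      · change outB W hL X n (inA W hL X (n + 1) a + inB W hL X n b) = b
        rw [map_add, outB_inA, outB_inB, zero_add])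

lemma eqv_apply (X : 𝒱.Obj) (n : ℕ) (a : hom0 W X (n + 1)) (b : hom0 W X n) :
    eqv hL X n (a, b) = inA W hL X (n + 1) a + inB W hL X n b := rfl

variable (hD : IsHeight W D)
include hD

lemma ht_inA {X : 𝒱.Obj} (h1 : D.H2 X) (h2 : D.H2 (X.prod L)) {n m : ℕ} (a : hom0 W X n)
    (y : hom0 W (X.prod L) (m + 1)) :
    D.ht (X.prod L) (inA W hL X n a) y = D.ht X a (outB W hL X m y) := by
  have ha := (mem_hom0.1 a.2).2
  have hy := (mem_hom0.1 y.2).2
  have ha' := (mem_hom0.1 (inA W hL X n a).2).2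
  have ho := (mem_hom0.1 (outB W hL X m y).2).2
  rw [hD.symm _ h2 _ _ ha' hy, hD.symm _ h1 _ _ ha ho]
  exact (hD.adj' (fst X L) h2 h1 _ _ hy ha).symm

lemma ht_inB {X : 𝒱.Obj} (h1 : D.H2 X) (h2 : D.H2 (X.prod L)) {n m : ℕ} (b : hom0 W X n)
    (y : hom0 W (X.prod L) m) :
    D.ht (X.prod L) (inB W hL X n b) y = D.ht X b (outA W hL X m y) := by
  have hb := (mem_hom0.1 b.2).2
  have hy := (mem_hom0.1 y.2).2
  have hb' : W.cl _ (C.pull (fst X L) b.1) = 0 := by rw [W.cl_pull, hb, map_zero]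
  have hzy : W.cl _ (C.pull (snd X L) (pt hL) * y.1) = 0 := by rw [map_mul, hy, mul_zero]
  have ho := (mem_hom0.1 (outA W hL X m y).2).2
  change D.ht (X.prod L) (C.pull (snd X L) (pt hL) * C.pull (fst X L) b.1) y.1 = _
  rw [hD.mul _ h2 _ _ _ hb' hy, hD.symm _ h2 _ _ hb' hzy, hD.symm _ h1 _ _ hb ho]
  exact (hD.adj' (fst X L) h2 h1 _ _ hzy hb).symm

omit hD in
lemma inA_injective (X : 𝒱.Obj) (n : ℕ) : Function.Injective (inA W hL X n) :=
  Function.LeftInverse.injective (outA_inA hL X n)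

omit hD in
lemma inB_injective (X : 𝒱.Obj) (n : ℕ) : Function.Injective (inB W hL X n) :=
  Function.LeftInverse.injective (outB_inB hL X n)

/-- nondegeneracy on `X × ℙ¹` gives nondegeneracy on `X` -/
theorem realInj_left {X : 𝒱.Obj} (h1 : D.H2 X) (h2 : D.H2 (X.prod L)) {n m : ℕ}
    (h : RealInj (D.ht (X.prod L)) (hom0 W (X.prod L) n) (hom0 W (X.prod L) (m + 1))) :
    RealInj (D.ht X) (hom0 W X n) (hom0 W X m) :=
  RealInj.of_comp (inA W hL X n) (inA_injective hL X n) (outB W hL X m)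
    (fun a y => ht_inA hL hD h1 h2 a y) h

theorem realInj_right {X : 𝒱.Obj} (h1 : D.H2 X) (h2 : D.H2 (X.prod L)) {n m : ℕ}
    (h : RealInj (D.ht (X.prod L)) (hom0 W (X.prod L) (n + 1)) (hom0 W (X.prod L) m)) :
    RealInj (D.ht X) (hom0 W X n) (hom0 W X m) :=
  RealInj.of_comp (inB W hL X n) (inB_injective hL X n) (outA W hL X m)
    (fun a y => ht_inB hL hD h1 h2 a y) h

omit hL in
/-- the pairing on homologically trivial classes is symmetric -/
lemma realInj_flip {X : 𝒱.Obj} (h1 : D.H2 X) {n m : ℕ} :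
    RealInj (D.ht X).flip (hom0 W X n) (hom0 W X m) ↔
      RealInj (D.ht X) (hom0 W X n) (hom0 W X m) := by
  have key : ∀ (x : hom0 W X n), ((D.ht X).flip x).domRestrict (hom0 W X m) =
      (D.ht X x).domRestrict (hom0 W X m) := by
    intro x
    apply LinearMap.ext
    intro y
    exact hD.symm X h1 _ _ (mem_hom0.1 y.2).2 (mem_hom0.1 x.2).2
  unfold RealInj
  simp only [key]

/-- the determinant of the height pairing on `X × ℙ¹` -/
theorem detc_prod {X : 𝒱.Obj} (h1 : D.H2 X) (h2 : D.H2 (X.prod L)) {n m r s : ℕ}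
    (b1 : Module.Basis (Fin r) ℚ (hom0 W X (n + 1))) (b1' : Module.Basis (Fin r) ℚ (hom0 W X m))
    (b2 : Module.Basis (Fin s) ℚ (hom0 W X n)) (b2' : Module.Basis (Fin s) ℚ (hom0 W X (m + 1)))
    (hd1 : (Matrix.of fun i j => D.ht X (b1 i) (b1' j)).det ≠ 0)
    (hd2 : (Matrix.of fun i j => D.ht X (b2 i) (b2' j)).det ≠ 0) :
    detc (D.ht (X.prod L)) (hom0 W (X.prod L) (n + 1)) (hom0 W (X.prod L) (m + 1)) =
      detc (D.ht X) (hom0 W X (n + 1)) (hom0 W X m) *
        detc (D.ht X) (hom0 W X n) (hom0 W X (m + 1)) := by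
  have e1 := detc_eq (B := D.ht (X.prod L)) ((b1.prod b2).map (eqv hL X n))
    (((b2'.prod b1').map (eqv hL X m)).reindex (Equiv.sumComm (Fin s) (Fin r)))
  rw [e1, detc_eq b1 b1', detc_eq b2 b2', ← cls_mul (by exact_mod_cast hd1) (by exact_mod_cast hd2)]
  congr 1
  rw [← Complex.ofReal_mul, ← Matrix.det_fromBlocks_zero₂₁ _ 0]
  congr 2
  ext i j
  rcases i with i | i <;> rcases j with j | j
  · simp only [Matrix.of_apply, Module.Basis.map_apply, Module.Basis.prod_apply, Sum.elim_inl,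
      Function.comp_apply, LinearMap.coe_inl, Module.Basis.reindex_apply, Equiv.sumComm_symm,
      Equiv.sumComm_apply, Sum.swap_inl, Sum.elim_inr, LinearMap.coe_inr, eqv_apply, map_zero,
      add_zero, zero_add, Matrix.fromBlocks_apply₁₁]
    rw [ht_inA hL hD h1 h2, outB_inB]
  · simp only [Matrix.of_apply, Module.Basis.map_apply, Module.Basis.prod_apply, Sum.elim_inl,
      Function.comp_apply, LinearMap.coe_inl, Module.Basis.reindex_apply, Equiv.sumComm_symm,
      Equiv.sumComm_apply, Sum.swap_inr, Sum.elim_inr, LinearMap.coe_inr, eqv_apply, map_zero,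
      add_zero, zero_add, Matrix.fromBlocks_apply₁₂, Matrix.zero_apply]
    rw [ht_inA hL hD h1 h2, outB_inA]
    simp
  · simp only [Matrix.of_apply, Module.Basis.map_apply, Module.Basis.prod_apply, Sum.elim_inl,
      Function.comp_apply, LinearMap.coe_inl, Module.Basis.reindex_apply, Equiv.sumComm_symm,
      Equiv.sumComm_apply, Sum.swap_inl, Sum.elim_inr, LinearMap.coe_inr, eqv_apply, map_zero,
      add_zero, zero_add, Matrix.fromBlocks_apply₂₁, Matrix.zero_apply]
    rw [ht_inB hL hD h1 h2, outA_inB]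
    simp
  · simp only [Matrix.of_apply, Module.Basis.map_apply, Module.Basis.prod_apply, Sum.elim_inl,
      Function.comp_apply, LinearMap.coe_inl, Module.Basis.reindex_apply, Equiv.sumComm_symm,
      Equiv.sumComm_apply, Sum.swap_inr, Sum.elim_inr, LinearMap.coe_inr, eqv_apply, map_zero,
      add_zero, zero_add, Matrix.fromBlocks_apply₂₂]
    rw [ht_inB hL hD h1 h2, outA_inA]

end Line

end Pool.Agent.R904.HB
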