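import Pool.Agent.R904.RK.Ord

/-!
# The leading coefficient as a function of the variety
-/

set_option autoImplicit false

open CategoryTheory AlgebraicGeometry
open Pool.Agent.H914 Pool.Agent.H914.VarClass Pool.Agent.H914.VarClass.Obj
open Pool.Agent.R903 Pool.Agent.R904.RK

universe u v w

namespace Pool.Agent.R904.HB

variable {k : Type u} [Field k] {𝒱 : VarClass k} {C : ChowTheory.{u, v} 𝒱}
  {E : EulerFactors 𝒱} {X Y L B : 𝒱.Obj} {F G : ℂ → ℂ}

open EulerFactors

/-- Two meromorphic continuations along the real axis agree near the point. -/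
theorem eventuallyEq_of {j : ℕ} {m : ℝ} (hF : E.IsContinuation X j m F)
    (hG : E.IsContinuation X j m G) : F =ᶠ[nhdsWithin (m : ℂ) {(m : ℂ)}ᶜ] G := by
  obtain ⟨⟨σ, hσ⟩, hF⟩ := hF
  obtain ⟨⟨τ, hτ⟩, hG⟩ := hG
  set U : Set ℂ := (fun x : ℝ => (x : ℂ)) '' Set.Ici m with hU
  have hcon : IsConnected U := by
    rw [hU]
    exact isConnected_Ici.image _ Complex.continuous_ofReal.continuousOn
  have hmero : MeromorphicOn (F - G) U := by
    rintro _ ⟨x, hx, rfl⟩
    exact (hF x hx).sub (hG x hx)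
  have hagree : ∀ s : ℂ, max σ τ < s.re → F s = G s := fun s hs =>
    (hσ s (lt_of_le_of_lt (le_max_left _ _) hs)).unique
      (hτ s (lt_of_le_of_lt (le_max_right _ _) hs))
  set y : ℝ := max m (max σ τ + 1) with hy
  have hyU : (y : ℂ) ∈ U := ⟨y, Set.mem_Ici.2 (le_max_left _ _), rfl⟩
  have hmU : (m : ℂ) ∈ U := ⟨m, Set.mem_Ici.2 (le_refl m), rfl⟩
  have hytop : meromorphicOrderAt (F - G) y = ⊤ := by
    rw [meromorphicOrderAt_eq_top_iff]
    have hopen : {s : ℂ | max σ τ < s.re} ∈ nhds (y : ℂ) := by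
      apply IsOpen.mem_nhds (isOpen_lt continuous_const Complex.continuous_re)
      change max σ τ < (y : ℂ).re
      rw [Complex.ofReal_re]
      have := le_max_right m (max σ τ + 1)
      linarith
    filter_upwards [nhdsWithin_le_nhds hopen] with s hs
    simp [hagree s hs]
  have hmtop : meromorphicOrderAt (F - G) m = ⊤ := by
    by_contra hne
    exact (hmero.meromorphicOrderAt_ne_top_of_isPreconnected hcon.isPreconnected hmU hyU hne) hytop
  rw [meromorphicOrderAt_eq_top_iff] at hmtop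
  filter_upwards [hmtop] with s hs
  simpa [sub_eq_zero] using hs

open Classical in
/-- the leading coefficient of `L(H^(2i-1)(X), s)` at `s = i`; one if there is no continuation,
or if `i = 0` -/
noncomputable def lc (E : EulerFactors 𝒱) (X : 𝒱.Obj) (i : ℕ) : ℂ :=
  if h : 1 ≤ i ∧ ∃ F, E.IsContinuation X (2 * i - 1) i F then
    meromorphicTrailingCoeffAt h.2.choose (i : ℂ) else 1

lemma lc_eq {i : ℕ} (hi : 1 ≤ i) (hF : E.IsContinuation X (2 * i - 1) i F) :
    lc E X i = meromorphicTrailingCoeffAt F (i : ℂ) := by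
  have h : 1 ≤ i ∧ ∃ F, E.IsContinuation X (2 * i - 1) i F := ⟨hi, F, hF⟩
  rw [lc, dif_pos h]
  have := meromorphicTrailingCoeffAt_congr_nhdsNE (eventuallyEq_of h.2.choose_spec hF)
  simpa using this

lemma lc_zero : lc E X 0 = 1 := by
  rw [lc, dif_neg]
  rintro ⟨h, _⟩
  omega

lemma lc_top (hE : E.Basic) {i : ℕ} (h : X.dim < i) : lc E X i = 1 := by
  have h1 : E.IsContinuation X (2 * i - 1) i (fun _ => 1) := by
    refine ⟨⟨0, fun s _ => ?_⟩, fun x _ => MeromorphicAt.const _ _⟩
    have : (fun v => ((E.P v X (2 * i - 1)).eval ((E.q v : ℂ) ^ (-s)))⁻¹) = fun _ => 1 := by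
      funext v
      rw [hE.top v X _ (by omega)]
      simp
    rw [this]
    exact hasProd_one
  rw [lc_eq (by omega) h1, meromorphicTrailingCoeffAt_const]

lemma lc_ne_zero (hX : E.Continues X) {i : ℕ} (h : ord E X i ≠ ⊤) : lc E X i ≠ 0 := by
  by_cases hi : 1 ≤ i
  · obtain ⟨F, hF⟩ := hX i hi
    rw [lc_eq hi hF]
    rw [ord_eq hi hF] at h
    have := hF.2 i le_rfl
    rw [Complex.ofReal_natCast] at this
    exact this.meromorphicTrailingCoeffAt_ne_zero h
  · have : i = 0 := by omega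
    subst this
    rw [lc_zero]
    exact one_ne_zero

lemma lc_prod (hE : E.Basic) (hL : IsLine C E L) (hX : E.Continues X) (i : ℕ) :
    lc E (X.prod L) (i + 1) = lc E X (i + 1) * lc E X i := by
  match i with
  | 0 =>
    obtain ⟨F, hF⟩ := hX 1 le_rfl
    rw [lc_zero, mul_one, zero_add, lc_eq le_rfl hF, lc_eq le_rfl (cont_prod_one hL hF)]
  | i + 1 =>
    obtain ⟨F, hF⟩ := hX (i + 2) (by omega)
    obtain ⟨G, hG⟩ := hX (i + 1) (by omega)
    have h := cont_prod hE hL i hF hG
    rw [lc_eq (by omega) h, lc_eq (by omega) hF, lc_eq (by omega) hG]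
    have hF' : MeromorphicAt F ((i + 2 : ℕ) : ℂ) := by
      have := hF.2 _ le_rfl
      simpa using this
    have hG' : MeromorphicAt (fun s => G (s - 1)) ((i + 2 : ℕ) : ℂ) := by
      have := (hG.shift 1).2 ((i + 2 : ℕ) : ℝ) (by push_cast; linarith)
      simpa using this
    have h2 := MeromorphicAt.meromorphicTrailingCoeffAt_fun_mul hF' hG'
    have h3 : meromorphicTrailingCoeffAt (fun s => G (s - 1)) ((i + 2 : ℕ) : ℂ) =
        meromorphicTrailingCoeffAt G ((i + 1 : ℕ) : ℂ) := by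
      rw [meromorphicTrailingCoeffAt_fun_comp_sub_const_eq_meromorphicTrailingCoeffAt]
      congr 1
      push_cast
      ring
    rw [h3] at h2
    exact h2

lemma lc_dual' (hE : E.Basic) (hLef : E.Lefschetz) (hX : E.Continues X) {i : ℕ} (hi : 1 ≤ i)
    (h : 2 * i - 1 ≤ X.dim) : lc E X (X.dim + 1 - i) = lc E X i := by
  obtain ⟨F, hF⟩ := hX i hi
  rw [lc_eq hi hF, lc_eq (by omega) (cont_dual hE hLef hi h hF),
    meromorphicTrailingCoeffAt_fun_comp_sub_const_eq_meromorphicTrailingCoeffAt]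
  congr 1
  rw [← Nat.cast_sub (by omega)]
  congr 1
  omega

lemma lc_dual (hE : E.Basic) (hLef : E.Lefschetz) (hX : E.Continues X) {i : ℕ} (hi : 1 ≤ i)
    (h : i ≤ X.dim) : lc E X (X.dim + 1 - i) = lc E X i := by
  by_cases h1 : 2 * i - 1 ≤ X.dim
  · exact lc_dual' hE hLef hX hi h1
  · have := lc_dual' hE hLef hX (i := X.dim + 1 - i) (by omega) (by omega)
    rw [← this]
    congr 1
    omega

end Pool.Agent.R904.HB
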