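import Pool.Agent.R904.HB.Defs

/-!
# Linear algebra of real-valued pairings of rational vector spaces
-/

set_option autoImplicit false

universe u v w

namespace Pool.Agent.R904.HB

section Inj

variable {A : Type v} [AddCommGroup A] [Module ℚ A] {A₁ : Type w} [AddCommGroup A₁] [Module ℚ A₁]

/-- passing to a summand -/
theorem RealInj.of_comp {B : A →ₗ[ℚ] A →ₗ[ℚ] ℝ} {V V' : Submodule ℚ A}
    {B₁ : A₁ →ₗ[ℚ] A₁ →ₗ[ℚ] ℝ} {V₁ V₁' : Submodule ℚ A₁} (α : V₁ →ₗ[ℚ] V)
    (hα : Function.Injective α) (π : V' →ₗ[ℚ] V₁')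
    (h : ∀ (x : V₁) (y : V'), B (α x) y = B₁ x (π y)) (hB : RealInj B V V') :
    RealInj B₁ V₁ V₁' := by
  intro n v hv
  have h1 : LinearIndependent ℚ (fun i => α (v i)) :=
    hv.map' α (LinearMap.ker_eq_bot.2 hα)
  have h2 := hB n _ h1
  let T : (V₁' →ₗ[ℚ] ℝ) →ₗ[ℝ] (V' →ₗ[ℚ] ℝ) :=
    { toFun := fun f => f ∘ₗ π
      map_add' := fun f g => by ext; rfl
      map_smul' := fun c f => by ext; rfl }
  apply LinearIndependent.of_comp T
  convert h2 using 2 with i
  apply LinearMap.ext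
  intro y
  exact (h (v i) y).symm

/-- the dimensions -/
theorem RealInj.le {B : A →ₗ[ℚ] A →ₗ[ℚ] ℝ} {V V' : Submodule ℚ A} (hB : RealInj B V V')
    [hV' : Module.Finite ℚ V'] {n : ℕ} {v : Fin n → V} (hv : LinearIndependent ℚ v) :
    n ≤ Module.finrank ℚ V' := by
  have h1 := hB n v hv
  have h2 := h1.fintype_card_le_finrank
  rwa [Module.finrank_linearMap_self, Fintype.card_fin] at h2

theorem RealInj.finite {B : A →ₗ[ℚ] A →ₗ[ℚ] ℝ} {V V' : Submodule ℚ A} (hB : RealInj B V V')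
    [hV' : Module.Finite ℚ V'] : Module.Finite ℚ V := by
  let b := Module.Basis.ofVectorSpace ℚ V
  have : Finite (Module.Basis.ofVectorSpaceIndex ℚ V) := by
    by_contra hinf
    rw [not_finite_iff_infinite] at hinf
    obtain ⟨f⟩ : Nonempty (Fin (Module.finrank ℚ V' + 1) ↪ Module.Basis.ofVectorSpaceIndex ℚ V) :=
      ⟨(Fin.valEmbedding.trans (Infinite.natEmbedding _))⟩
    have h1 : LinearIndependent ℚ (fun i => b (f i)) := b.linearIndependent.comp f f.injective
    have := hB.le h1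
    omega
  exact Module.Finite.of_basis b

theorem RealInj.finrank_le {B : A →ₗ[ℚ] A →ₗ[ℚ] ℝ} {V V' : Submodule ℚ A} (hB : RealInj B V V')
    [hV' : Module.Finite ℚ V'] : Module.finrank ℚ V ≤ Module.finrank ℚ V' := by
  have := hB.finite
  exact hB.le (Module.finBasis ℚ V).linearIndependent

theorem RealInj.det_ne_zero {B : A →ₗ[ℚ] A →ₗ[ℚ] ℝ} {V V' : Submodule ℚ A} (hB : RealInj B V V')
    {r : ℕ} (b : Module.Basis (Fin r) ℚ V) (b' : Module.Basis (Fin r) ℚ V') :
    (Matrix.of fun i j => B (b i) (b' j)).det ≠ 0 := by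
  have h1 := hB r b b.linearIndependent
  let T : (V' →ₗ[ℚ] ℝ) →ₗ[ℝ] (Fin r → ℝ) :=
    { toFun := fun f j => f (b' j)
      map_add' := fun f g => by ext; rfl
      map_smul' := fun c f => by ext; rfl }
  have hT : LinearMap.ker T = ⊥ := by
    rw [LinearMap.ker_eq_bot']
    intro f hf
    apply b'.ext
    intro j
    exact congrFun hf j
  have h2 := h1.map' T hT
  have h3 : LinearIndependent ℝ (Matrix.of fun i j => B (b i) (b' j)).row := h2
  rw [Matrix.linearIndependent_rows_iff_isUnit, Matrix.isUnit_iff_isUnit_det] at h3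
  exact h3.ne_zero

lemma realInj_of_bot {B : A →ₗ[ℚ] A →ₗ[ℚ] ℝ} {V V' : Submodule ℚ A} (hV : V = ⊥) :
    RealInj B V V' := by
  intro n v hv
  subst hV
  match n with
  | 0 => exact linearIndependent_empty_type
  | n + 1 =>
    exfalso
    have h1 := hv.ne_zero 0
    exact h1 (Subsingleton.elim _ _)

end Inj

/-! ### Classes modulo rational numbers -/

/-- the nonzero rational numbers in `ℂˣ` -/
noncomputable def NQ : Subgroup ℂˣ := (Units.map (Rat.castHom ℂ : ℚ →* ℂ)).range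

/-- the group `ℂˣ / ℚˣ` -/
def CQ : Type := ℂˣ ⧸ NQ

noncomputable instance : CommGroup CQ := inferInstanceAs (CommGroup (ℂˣ ⧸ NQ))

/-- the projection -/
noncomputable def toCQ : ℂˣ →* CQ := QuotientGroup.mk' NQ

lemma toCQ_eq {a b : ℂˣ} : toCQ a = toCQ b ↔ a⁻¹ * b ∈ NQ := by
  change (QuotientGroup.mk a : ℂˣ ⧸ NQ) = QuotientGroup.mk b ↔ _
  exact QuotientGroup.eq

open Classical in
/-- the class of a complex number modulo nonzero rational numbers -/
noncomputable def cls (z : ℂ) : CQ :=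
  if h : z = 0 then 1 else toCQ (Units.mk0 z h)

lemma cls_of_ne {z : ℂ} (h : z ≠ 0) : cls z = toCQ (Units.mk0 z h) := by
  rw [cls, dif_neg h]

lemma cls_mul {a b : ℂ} (ha : a ≠ 0) (hb : b ≠ 0) : cls (a * b) = cls a * cls b := by
  rw [cls_of_ne ha, cls_of_ne hb, cls_of_ne (mul_ne_zero ha hb), ← map_mul]
  congr 1
  apply Units.ext
  rfl

lemma cls_eq_iff {a b : ℂ} (ha : a ≠ 0) (hb : b ≠ 0) : cls a = cls b ↔ EqQ a b := by
  rw [cls_of_ne ha, cls_of_ne hb, toCQ_eq]
  constructor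
  · rintro ⟨q, hq⟩
    have h1 := congrArg Units.val hq
    simp only [Units.coe_map, MonoidHom.coe_coe, Units.val_mul, Units.val_inv_eq_inv_val,
      Units.val_mk0] at h1
    have hq0 : ((q : ℚ) : ℂ) ≠ 0 := by exact_mod_cast q.ne_zero
    refine ⟨(q : ℚ)⁻¹, by simp, ?_⟩
    have h2 : ((q : ℚ) : ℂ) = a⁻¹ * b := h1
    rw [Rat.cast_inv, h2]
    field_simp
  · rintro ⟨q, hq0, hq⟩
    have hq0' : (q : ℂ) ≠ 0 := by exact_mod_cast hq0
    refine ⟨(Units.mk0 q hq0)⁻¹, ?_⟩
    apply Units.ext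
    simp only [Units.coe_map, MonoidHom.coe_coe, Units.val_mul, Units.val_inv_eq_inv_val,
      Units.val_mk0, map_inv₀]
    change ((q : ℂ))⁻¹ = a⁻¹ * b
    rw [hq]
    field_simp

lemma EqQ.refl (a : ℂ) : EqQ a a := ⟨1, one_ne_zero, by simp⟩

lemma cls_one : cls 1 = 1 := by
  rw [cls_of_ne one_ne_zero]
  have : Units.mk0 (1 : ℂ) one_ne_zero = 1 := by ext; rfl
  rw [this, map_one]

lemma EqQ.cls {a b : ℂ} (h : EqQ a b) : cls a = cls b := by
  by_cases hb : b = 0
  · obtain ⟨q, _, hq⟩ := h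
    rw [hq, hb, mul_zero]
  · have ha : a ≠ 0 := by
      obtain ⟨q, hq0, hq⟩ := h
      rw [hq]
      exact mul_ne_zero (by exact_mod_cast hq0) hb
    exact (cls_eq_iff ha hb).2 h

section Det

variable {A : Type v} [AddCommGroup A] [Module ℚ A]

open Classical in
/-- the class of the determinant of a pairing -/
noncomputable def detc (B : A →ₗ[ℚ] A →ₗ[ℚ] ℝ) (V V' : Submodule ℚ A) : CQ :=
  if h : ∃ r : ℕ, Nonempty (Module.Basis (Fin r) ℚ V × Module.Basis (Fin r) ℚ V') then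
    cls ((Matrix.of fun i j => B (h.choose_spec.some.1 i) (h.choose_spec.some.2 j)).det : ℝ)
  else 1

lemma det_change {ι : Type*} [Fintype ι] [DecidableEq ι] {B : A →ₗ[ℚ] A →ₗ[ℚ] ℝ}
    {V V' : Submodule ℚ A} (b c : Module.Basis ι ℚ V) (b' c' : Module.Basis ι ℚ V') :
    EqQ ((Matrix.of fun i j => B (b i) (b' j)).det : ℝ)
      ((Matrix.of fun i j => B (c i) (c' j)).det : ℝ) := by
  set P : Matrix ι ι ℚ := c.toMatrix b with hP
  set Q : Matrix ι ι ℚ := c'.toMatrix b' with hQ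
  have hPu : P.det ≠ 0 := by
    have := c.isUnit_det b
    rw [Module.Basis.det_apply] at this
    exact this.ne_zero
  have hQu : Q.det ≠ 0 := by
    have := c'.isUnit_det b'
    rw [Module.Basis.det_apply] at this
    exact this.ne_zero
  refine ⟨P.det * Q.det, mul_ne_zero hPu hQu, ?_⟩
  have h1 : (Matrix.of fun i j => B (b i) (b' j)) =
      (P.map (Rat.castHom ℝ)).transpose * (Matrix.of fun i j => B (c i) (c' j)) *
        Q.map (Rat.castHom ℝ) := by
    ext i j
    have hb : ((b i : V) : A) = ∑ x, P x i • ((c x : V) : A) := by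
      have h := congrArg Subtype.val (c.sum_toMatrix_smul_self b i)
      rw [← h, hP]
      simp only [Submodule.coe_sum, Submodule.coe_smul]
    have hb' : ((b' j : V') : A) = ∑ x, Q x j • ((c' x : V') : A) := by
      have h := congrArg Subtype.val (c'.sum_toMatrix_smul_self b' j)
      rw [← h, hQ]
      simp only [Submodule.coe_sum, Submodule.coe_smul]
    simp only [Matrix.of_apply, Matrix.mul_apply, Matrix.transpose_apply, Matrix.map_apply,
      Rat.coe_castHom]
    rw [hb, hb', map_sum]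
    refine Finset.sum_congr rfl fun y _ => ?_
    rw [map_smul, Rat.smul_def, mul_comm]
    congr 1
    rw [map_sum, LinearMap.sum_apply]
    refine Finset.sum_congr rfl fun x _ => ?_
    rw [map_smul, LinearMap.smul_apply, Rat.smul_def]
  rw [h1, Matrix.det_mul, Matrix.det_mul, Matrix.det_transpose]
  have h2 : ∀ M : Matrix ι ι ℚ, (M.map (Rat.castHom ℝ)).det = (M.det : ℝ) := by
    intro M
    have := RingHom.map_det (Rat.castHom ℝ) M
    simpa using this.symm
  rw [h2, h2, Complex.ofReal_mul, Complex.ofReal_mul, Rat.cast_mul, Complex.ofReal_ratCast,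
    Complex.ofReal_ratCast]
  ring

lemma detc_eq_fin {B : A →ₗ[ℚ] A →ₗ[ℚ] ℝ} {V V' : Submodule ℚ A} {r : ℕ}
    (b : Module.Basis (Fin r) ℚ V) (b' : Module.Basis (Fin r) ℚ V') :
    detc B V V' = cls ((Matrix.of fun i j => B (b i) (b' j)).det : ℝ) := by
  have h : ∃ r : ℕ, Nonempty (Module.Basis (Fin r) ℚ V × Module.Basis (Fin r) ℚ V') :=
    ⟨r, ⟨b, b'⟩⟩
  rw [detc, dif_pos h]
  have hr : ∀ {s t : ℕ} (hst : s = t) (c : Module.Basis (Fin s) ℚ V)
      (c' : Module.Basis (Fin s) ℚ V') (b : Module.Basis (Fin t) ℚ V)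
      (b' : Module.Basis (Fin t) ℚ V'),
      cls ((Matrix.of fun i j => B (c i) (c' j)).det : ℝ) =
        cls ((Matrix.of fun i j => B (b i) (b' j)).det : ℝ) := by
    intro s t hst c c' b b'
    subst hst
    exact (det_change c b c' b').cls
  apply hr
  have h1 := Module.finrank_eq_card_basis b
  have h2 := Module.finrank_eq_card_basis h.choose_spec.some.1
  rw [h1] at h2
  simpa using h2.symm

lemma detc_eq {ι : Type*} [Fintype ι] [DecidableEq ι] {B : A →ₗ[ℚ] A →ₗ[ℚ] ℝ}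
    {V V' : Submodule ℚ A} (b : Module.Basis ι ℚ V) (b' : Module.Basis ι ℚ V') :
    detc B V V' = cls ((Matrix.of fun i j => B (b i) (b' j)).det : ℝ) := by
  let e := Fintype.equivFin ι
  rw [detc_eq_fin (b.reindex e) (b'.reindex e)]
  congr 2
  have : (Matrix.of fun i j => B (b.reindex e i) (b'.reindex e j)) =
      (Matrix.of fun i j => B (b i) (b' j)).submatrix e.symm e.symm := by
    ext i j
    simp
  rw [this, Matrix.det_submatrix_equiv_self]

lemma detc_flip {B : A →ₗ[ℚ] A →ₗ[ℚ] ℝ} {V V' : Submodule ℚ A}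
    (h : ∀ x ∈ V, ∀ y ∈ V', B x y = B y x) : detc B V' V = detc B V V' := by
  by_cases hex : ∃ r : ℕ, Nonempty (Module.Basis (Fin r) ℚ V × Module.Basis (Fin r) ℚ V')
  · obtain ⟨r, ⟨b, b'⟩⟩ := hex
    rw [detc_eq_fin b b', detc_eq_fin b' b, ← Matrix.det_transpose]
    congr 3
    ext i j
    simp only [Matrix.transpose_apply, Matrix.of_apply]
    exact (h _ (b i).2 _ (b' j).2).symm
  · rw [detc, detc, dif_neg, dif_neg hex]
    rintro ⟨r, ⟨b, b'⟩⟩
    exact hex ⟨r, ⟨b', b⟩⟩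

end Det

end Pool.Agent.R904.HB
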