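import Pool.Agent.R904.HB.Defs

/-!
# Beilinson's conjecture on heights: all cases and the cases on a diagonal
-/

set_option autoImplicit false

open Pool.Agent.H914 Pool.Agent.H914.VarClass Pool.Agent.H914.VarClass.Obj

universe u

namespace Pool.Agent.R904.HB

variable {k : Type u} [Field k] {𝒱 : VarClass k}

/-- `P X m` holds for all `X` in `S` and all `m ≥ 1`. -/
def Everywhere (P : 𝒱.Obj → ℕ → Prop) (S : Set 𝒱.Obj) : Prop :=
  ∀ X ∈ S, ∀ m : ℕ, 1 ≤ m → P X m

/-- `P X m` holds for all `X` in `S` and all `m ≥ 1` with `dim X = 2 m + a`. With `i = 2 m - 1` this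
is the condition `dim X = i + 1 + a`; so `a = -1` are the central cases `dim X = i`. -/
def OnDiagonal (P : 𝒱.Obj → ℕ → Prop) (S : Set 𝒱.Obj) (a : ℤ) : Prop :=
  ∀ X ∈ S, ∀ m : ℕ, 1 ≤ m → (X.dim : ℤ) = 2 * m + a → P X m

end Pool.Agent.R904.HB
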