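import Pool.Agent.R904.HB.Comb
import Pool.Agent.R904.HB.Ht
import Pool.Agent.R904.HB.Lc
import Pool.Agent.R904.HB.Stmt

/-!
# Beilinson's conjecture on heights: one diagonal suffices
-/

set_option autoImplicit false

open CategoryTheory AlgebraicGeometry
open Pool.Agent.H914 Pool.Agent.H914.VarClass Pool.Agent.H914.VarClass.Obj
open Pool.Agent.R903 Pool.Agent.R904.RK

universe u v w

namespace Pool.Agent.R904.HB

variable {k : Type u} [Field k] {𝒱 : VarClass k} {C : ChowTheory.{u, v} 𝒱}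
  {W : WeilTheory.{u, v, w} C} {E : EulerFactors 𝒱} {D : HeightData C} {L : 𝒱.Obj}

open EulerFactors

variable (W E D) in
/-- both sides are finite, and the pairing is nondegenerate -/
structure Good (X : 𝒱.Obj) (m : ℕ) : Prop where
  fin : Module.Finite ℚ (hom0 W X m)
  fin' : Module.Finite ℚ (hom0 W X (X.dim + 1 - m))
  inj : RealInj (D.ht X) (hom0 W X m) (hom0 W X (X.dim + 1 - m))
  inj' : RealInj (D.ht X) (hom0 W X (X.dim + 1 - m)) (hom0 W X m)
  ord : ord E X m ≠ ⊤

variable (W E) in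
/-- rank minus order -/
noncomputable def def1 (X : 𝒱.Obj) (i : ℕ) : ℤ :=
  (Module.finrank ℚ (hom0 W X i) : ℤ) - (ord E X i).untopD 0

variable (W E D) in
/-- the leading coefficient divided by the period and the determinant, modulo rational numbers -/
noncomputable def def2 (X : 𝒱.Obj) (i : ℕ) : Additive CQ :=
  Additive.ofMul (cls (lc E X i) *
    (cls (D.per X i) * detc (D.ht X) (hom0 W X i) (hom0 W X (X.dim + 1 - i)))⁻¹)

section Basics

variable (hC : C.Polarized)
include hC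

lemma hom0_dual_of_bot {X : 𝒱.Obj} {m : ℕ} (h : m = 0 ∨ X.dim < m) :
    hom0 W X m = ⊥ ∧ hom0 W X (X.dim + 1 - m) = ⊥ := by
  rcases h with h | h
  · subst h
    exact ⟨hom0_zero hC X, hom0_top X (by omega)⟩
  · refine ⟨hom0_top X h, ?_⟩
    have : X.dim + 1 - m = 0 := by omega
    rw [this]
    exact hom0_zero hC X

lemma good_of (hE : E.Basic) {X : 𝒱.Obj} {m : ℕ} (h : m = 0 ∨ X.dim < m) : Good W E D X m := by
  obtain ⟨h1, h2⟩ := hom0_dual_of_bot (W := W) hC h
  refine ⟨by rw [h1]; infer_instance, by rw [h2]; infer_instance, realInj_of_bot h1,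
    realInj_of_bot h2, ?_⟩
  rcases h with h | h
  · subst h
    rw [ord_zero]
    simp
  · rw [ord_top hE h]
    simp

lemma def1_of (hE : E.Basic) {X : 𝒱.Obj} {m : ℕ} (h : m = 0 ∨ X.dim < m) :
    def1 W E X m = 0 := by
  obtain ⟨h1, h2⟩ := hom0_dual_of_bot (W := W) hC h
  rw [def1, h1]
  rcases h with h | h
  · subst h
    rw [ord_zero]
    simp
  · rw [ord_top hE h]
    simp

lemma def2_of (hE : E.Basic) (hper : IsPeriod D L) {X : 𝒱.Obj} {m : ℕ} (h : m = 0 ∨ X.dim < m) :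
    def2 W E D X m = 0 := by
  obtain ⟨h1, h2⟩ := hom0_dual_of_bot (W := W) hC h
  have e1 : cls (D.per X m) = 1 := by
    rw [← cls_one]
    apply EqQ.cls
    rcases h with h | h
    · subst h
      exact hper.zero X
    · exact hper.top X m h
  have e2 : lc E X m = 1 := by
    rcases h with h | h
    · subst h
      exact lc_zero
    · exact lc_top hE h
  have e3 : detc (D.ht X) (hom0 W X m) (hom0 W X (X.dim + 1 - m)) = 1 := by
    rw [h1, h2]
    let b : Module.Basis (Fin 0) ℚ (⊥ : Submodule ℚ (C.CH X)) := Module.Basis.empty _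
    rw [detc_eq b b]
    simp [cls_one]
  rw [def2, e1, e2, e3, cls_one]
  simp

end Basics

section Line

variable (hL : IsLine C E L) (hD : IsHeight W D)

include hL in
lemma finite_parts {X : 𝒱.Obj} {i : ℕ} (h : Module.Finite ℚ (hom0 W (X.prod L) (i + 1))) :
    Module.Finite ℚ (hom0 W X (i + 1)) ∧ Module.Finite ℚ (hom0 W X i) :=
  ⟨Module.Finite.of_surjective (outA W hL X (i + 1)) (fun a => ⟨_, outA_inA hL X (i + 1) a⟩),
    Module.Finite.of_surjective (outB W hL X i) (fun a => ⟨_, outB_inB hL X i a⟩)⟩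

variable (hC : C.Polarized) (hE : E.Basic)
include hL hD hC hE

lemma good_prod {X : 𝒱.Obj} (hX : E.Continues X) (h1 : D.H2 X) (h2 : D.H2 (X.prod L)) {i : ℕ}
    (h : Good W E D (X.prod L) (i + 1)) : Good W E D X (i + 1) ∧ Good W E D X i := by
  by_cases hi : X.dim < i
  · exact ⟨good_of hC hE (Or.inr (by omega)), good_of hC hE (Or.inr hi)⟩
  · obtain ⟨g1, g2, g3, g4, g5⟩ := h
    have e0 : (X.prod L).dim + 1 - (i + 1) = (X.dim - i) + 1 := by
      rw [dim_line hL]
      omega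
    have e1 : X.dim + 1 - (i + 1) = X.dim - i := by omega
    have e2 : X.dim + 1 - i = (X.dim - i) + 1 := by omega
    rw [e0] at g2 g3 g4
    rw [ord_prod hE hL hX, WithTop.add_ne_top] at g5
    obtain ⟨f1, f2⟩ := finite_parts hL g1
    obtain ⟨f3, f4⟩ := finite_parts hL g2
    refine ⟨⟨f1, by rw [e1]; exact f4, ?_, ?_, g5.1⟩, ⟨f2, by rw [e2]; exact f3, ?_, ?_, g5.2⟩⟩
    · rw [e1]
      exact realInj_left hL hD h1 h2 g3
    · rw [e1]
      exact realInj_right hL hD h1 h2 g4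
    · rw [e2]
      exact realInj_right hL hD h1 h2 g3
    · rw [e2]
      exact realInj_left hL hD h1 h2 g4

omit hD in
lemma def1_prod {X : 𝒱.Obj} (hX : E.Continues X) {i : ℕ} (h : Good W E D (X.prod L) (i + 1))
    (h' : Good W E D X (i + 1) ∧ Good W E D X i) :
    def1 W E (X.prod L) (i + 1) = def1 W E X (i + 1) + def1 W E X i := by
  obtain ⟨⟨f1, _, _, _, o1⟩, ⟨f2, _, _, _, o2⟩⟩ := h'
  obtain ⟨m, hm⟩ := WithTop.ne_top_iff_exists.1 o1
  obtain ⟨n, hn⟩ := WithTop.ne_top_iff_exists.1 o2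
  rw [def1, def1, def1, ← (eqv hL X i).finrank_eq, Module.finrank_prod, ord_prod hE hL hX, ← hm,
    ← hn, ← WithTop.coe_add]
  simp only [WithTop.untopD_coe]
  push_cast
  ring

omit hL hD hC hE in
lemma Good.finrank_eq {X : 𝒱.Obj} {m : ℕ} (h : Good W E D X m) :
    Module.finrank ℚ (hom0 W X m) = Module.finrank ℚ (hom0 W X (X.dim + 1 - m)) := by
  have := h.fin
  have := h.fin'
  exact le_antisymm h.inj.finrank_le h.inj'.finrank_le

lemma def2_prod (hper : IsPeriod D L) {X : 𝒱.Obj} (hX : E.Continues X) (h1 : D.H2 X)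
    (h2 : D.H2 (X.prod L)) {i : ℕ} (h : Good W E D (X.prod L) (i + 1)) :
    def2 W E D (X.prod L) (i + 1) = def2 W E D X (i + 1) + def2 W E D X i := by
  by_cases hi : X.dim < i
  · have t1 : def2 W E D (X.prod L) (i + 1) = 0 :=
      def2_of hC hE hper (Or.inr (by rw [dim_line hL]; omega))
    have t2 : def2 W E D X (i + 1) = 0 := def2_of hC hE hper (Or.inr (by omega))
    rw [t1, t2, def2_of hC hE hper (Or.inr hi), add_zero]
  · obtain ⟨g1, g2⟩ := good_prod hL hD hC hE hX h1 h2 h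
    have e0 : (X.prod L).dim + 1 - (i + 1) = (X.dim - i) + 1 := by
      rw [dim_line hL]
      omega
    have e1 : X.dim + 1 - (i + 1) = X.dim - i := by omega
    have e2 : X.dim + 1 - i = (X.dim - i) + 1 := by omega
    have r1 := g1.finrank_eq
    have r2 := g2.finrank_eq
    obtain ⟨f1, f1', i1, _, o1⟩ := g1
    obtain ⟨f2, f2', i2, _, o2⟩ := g2
    rw [e1] at f1' i1 r1
    rw [e2] at f2' i2 r2
    have b1 := Module.finBasis ℚ (hom0 W X (i + 1))
    have b1' := Module.finBasisOfFinrankEq ℚ (hom0 W X (X.dim - i)) r1.symm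
    have b2 := Module.finBasis ℚ (hom0 W X i)
    have b2' := Module.finBasisOfFinrankEq ℚ (hom0 W X (X.dim - i + 1)) r2.symm
    have hd := detc_prod hL hD h1 h2 b1 b1' b2 b2' (i1.det_ne_zero b1 b1') (i2.det_ne_zero b2 b2')
    have hp1 : (D.per X (i + 1) : ℂ) ≠ 0 := by exact_mod_cast hper.ne_zero X (i + 1)
    have hp2 : (D.per X i : ℂ) ≠ 0 := by exact_mod_cast hper.ne_zero X i
    rw [def2, def2, def2, e0, e1, e2, hd, lc_prod hE hL hX,
      cls_mul (lc_ne_zero hX o1) (lc_ne_zero hX o2), (hper.prod X i).cls, cls_mul hp1 hp2,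
      ← ofMul_mul]
    congr 1
    set a := cls (lc E X (i + 1))
    set b := cls (lc E X i)
    set c := cls (D.per X (i + 1))
    set d := cls (D.per X i)
    set e := detc (D.ht X) (hom0 W X (i + 1)) (hom0 W X (X.dim - i))
    set f := detc (D.ht X) (hom0 W X i) (hom0 W X (X.dim - i + 1))
    rw [mul_inv, mul_inv, mul_inv, mul_inv, mul_inv]
    ac_rfl

end Line

section Dual

lemma def1_dual (hC : C.Polarized) (hE : E.Basic) (hLef : E.Lefschetz) {X : 𝒱.Obj}
    (hX : E.Continues X) {m : ℕ} (h : Good W E D X m) :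
    def1 W E X (X.dim + 1 - m) = def1 W E X m := by
  by_cases h0 : m = 0 ∨ X.dim < m
  · rw [def1_of hC hE h0, def1_of hC hE (by omega)]
  · rw [def1, def1, ord_dual hE hLef hX (by omega) (by omega), h.finrank_eq]

lemma def2_dual (hC : C.Polarized) (hE : E.Basic) (hLef : E.Lefschetz) (hD : IsHeight W D)
    (hper : IsPeriod D L) {X : 𝒱.Obj} (hX : E.Continues X) (h2 : D.H2 X) (m : ℕ) :
    def2 W E D X (X.dim + 1 - m) = def2 W E D X m := by
  by_cases h0 : m = 0 ∨ X.dim < m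
  · rw [def2_of hC hE hper h0, def2_of hC hE hper (by omega)]
  · have e : X.dim + 1 - (X.dim + 1 - m) = m := by omega
    rw [def2, def2, e, lc_dual hE hLef hX (by omega) (by omega),
      (hper.dual X m (by omega) (by omega)).cls, detc_flip (B := D.ht X) (V := hom0 W X m)]
    intro x hx y hy
    exact hD.symm X h2 x y (mem_hom0.1 hx).2 (mem_hom0.1 hy).2

end Dual

/-! ### The two systems -/

section Sys

variable (hC : C.Polarized) (hE : E.Basic) (hLef : E.Lefschetz) (hD : IsHeight W D)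
  (hL : IsLine C E L) (hper : IsPeriod D L) (S : Set 𝒱.Obj) (hS : ∀ X ∈ S, X.prod L ∈ S)
  (hH2 : ∀ X, D.H2 X → D.H2 (X.prod L))

/-- the class `Adm S` is closed under products with the line -/
noncomputable def prodAdm (hE : E.Basic) (hL : IsLine C E L) (S : Set 𝒱.Obj)
    (hS : ∀ X ∈ S, X.prod L ∈ S) (hH2 : ∀ X, D.H2 X → D.H2 (X.prod L)) (X : Adm E D S) :
    Adm E D S :=
  ⟨X.1.prod L, hS _ X.2.1, continues_prod hE hL X.2.2.1, hH2 _ X.2.2.2⟩

include hC hD in
lemma G_prod' (X : Adm E D S) (i : ℤ)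
    (h : Good W E D (prodAdm hE hL S hS hH2 X).1 i.toNat) :
    Good W E D X.1 i.toNat ∧ Good W E D X.1 (i - 1).toNat := by
  by_cases hi : i ≤ 0
  · rw [Int.toNat_of_nonpos hi, Int.toNat_of_nonpos (by omega)]
    exact ⟨good_of hC hE (Or.inl rfl), good_of hC hE (Or.inl rfl)⟩
  · have e1 : i.toNat = (i - 1).toNat + 1 := by omega
    rw [e1] at h ⊢
    exact good_prod hL hD hC hE X.2.2.1 X.2.2.2 (hH2 _ X.2.2.2) h

/-- the system of ranks and orders -/
noncomputable def sys1 : GDiag (Adm E D S) ℤ where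
  dim X := X.1.dim
  prod := prodAdm hE hL S hS hH2
  dim_prod X := by
    change (((X.1.prod L).dim : ℕ) : ℤ) = X.1.dim + 1
    rw [dim_line hL]
    push_cast
    ring
  G X i := Good W E D X.1 i.toNat
  e X i := def1 W E X.1 i.toNat
  G_prod := fun X i h => G_prod' hC hE hD hL S hS hH2 X i h
  e_prod := by
    intro X i h
    by_cases hi : i ≤ 0
    · rw [Int.toNat_of_nonpos hi, Int.toNat_of_nonpos (by omega), def1_of hC hE (Or.inl rfl),
        def1_of hC hE (Or.inl rfl)]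
      rfl
    · have e1 : i.toNat = (i - 1).toNat + 1 := by omega
      have h' := G_prod' hC hE hD hL S hS hH2 X i h
      rw [e1] at h h' ⊢
      exact def1_prod hL hC hE X.2.2.1 h h'
  e_top := fun X i hi => def1_of hC hE (Or.inr (by omega))

/-- the system of ranks, orders and leading coefficients -/
noncomputable def sys2 : GDiag (Adm E D S) (ℤ × Additive CQ) where
  dim X := X.1.dim
  prod := prodAdm hE hL S hS hH2
  dim_prod X := by
    change (((X.1.prod L).dim : ℕ) : ℤ) = X.1.dim + 1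
    rw [dim_line hL]
    push_cast
    ring
  G X i := Good W E D X.1 i.toNat
  e X i := (def1 W E X.1 i.toNat, def2 W E D X.1 i.toNat)
  G_prod := fun X i h => G_prod' hC hE hD hL S hS hH2 X i h
  e_prod := by
    intro X i h
    by_cases hi : i ≤ 0
    · rw [Int.toNat_of_nonpos hi, Int.toNat_of_nonpos (by omega), def1_of hC hE (Or.inl rfl),
        def1_of hC hE (Or.inl rfl), def2_of hC hE hper (Or.inl rfl),
        def2_of hC hE hper (Or.inl rfl)]
      simp
    · have e1 : i.toNat = (i - 1).toNat + 1 := by omega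
      have h' := G_prod' hC hE hD hL S hS hH2 X i h
      rw [e1] at h h' ⊢
      exact Prod.ext (def1_prod hL hC hE X.2.2.1 h h')
        (def2_prod hL hD hC hE hper X.2.2.1 X.2.2.2 (hH2 _ X.2.2.2) h)
  e_top := fun X i hi => Prod.ext (def1_of hC hE (Or.inr (by omega)))
    (def2_of hC hE hper (Or.inr (by omega)))

end Sys

section Iff

variable {X : 𝒱.Obj} {m : ℕ}

lemma ranks_iff (hD : IsHeight W D) (hX : E.Continues X) (h2 : D.H2 X) (hm : 1 ≤ m) :
    Ranks W E D X m ↔ Good W E D X m ∧ def1 W E X m = 0 := by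
  obtain ⟨F, hF⟩ := hX m hm
  constructor
  · rintro ⟨h1, ⟨h3, h4⟩, h5⟩
    have h1' : Module.Finite ℚ (hom0 W X m) := h1
    have h6 : meromorphicOrderAt F (m : ℂ) = _ := h5 F hF
    rw [← ord_eq hm hF] at h6
    rw [realInj_flip hD h2] at h4
    refine ⟨⟨h1, h4.finite, h3, h4, by rw [h6]; exact WithTop.coe_ne_top⟩, ?_⟩
    rw [def1, h6, WithTop.untopD_coe, sub_self]
  · rintro ⟨h1, h3⟩
    refine ⟨h1.fin, ⟨h1.inj, ?_⟩, fun G hG => ?_⟩
    · rw [realInj_flip hD h2]
      exact h1.inj'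
    · change meromorphicOrderAt G (m : ℂ) = _
      rw [← ord_eq hm hG]
      obtain ⟨n, hn⟩ := WithTop.ne_top_iff_exists.1 h1.ord
      rw [def1, ← hn] at h3
      rw [← hn]
      simp only [WithTop.untopD_coe] at h3
      congr 1
      omega

lemma exists_bases (h : Good W E D X m) : ∃ r : ℕ,
    Nonempty (Module.Basis (Fin r) ℚ (hom0 W X m) ×
      Module.Basis (Fin r) ℚ (hom0 W X (X.dim + 1 - m))) := by
  have := h.fin
  have := h.fin'
  exact ⟨_, ⟨Module.finBasis ℚ (hom0 W X m),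
    Module.finBasisOfFinrankEq ℚ (hom0 W X (X.dim + 1 - m)) h.finrank_eq.symm⟩⟩

lemma partIV_iff (hper : IsPeriod D L) (hX : E.Continues X) (hm : 1 ≤ m)
    (h : Good W E D X m) : (∀ F, E.IsContinuation X (2 * m - 1) m F →
      PartIV (D.ht X) (hom0 W X m) (hom0 W X (X.dim + 1 - m)) (D.per X m) m F) ↔
      def2 W E D X m = 0 := by
  have hlc := lc_ne_zero hX h.ord
  have hp : (D.per X m : ℂ) ≠ 0 := by exact_mod_cast hper.ne_zero X m
  have key : ∀ (r : ℕ) (b : Module.Basis (Fin r) ℚ (hom0 W X m))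
      (b' : Module.Basis (Fin r) ℚ (hom0 W X (X.dim + 1 - m))),
      def2 W E D X m = 0 ↔ EqQ (lc E X m)
        (D.per X m * (Matrix.of fun i j => D.ht X (b i) (b' j)).det : ℝ) := by
    intro r b b'
    have hdet : ((Matrix.of fun i j => D.ht X (b i) (b' j)).det : ℂ) ≠ 0 := by
      exact_mod_cast h.inj.det_ne_zero b b'
    rw [def2, detc_eq b b', ← cls_mul hp hdet, ofMul_eq_zero, mul_inv_eq_one,
      cls_eq_iff hlc (mul_ne_zero hp hdet)]
    push_cast
    rfl
  constructor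
  · intro h4
    obtain ⟨F, hF⟩ := hX m hm
    obtain ⟨r, ⟨b, b'⟩⟩ := exists_bases h
    rw [key r b b', lc_eq hm hF]
    exact h4 F hF r b b'
  · intro h4 F hF r b b'
    rw [← lc_eq hm hF]
    exact (key r b b').1 h4

lemma leading_iff (hD : IsHeight W D) (hper : IsPeriod D L) (hX : E.Continues X) (h2 : D.H2 X)
    (hm : 1 ≤ m) : Leading W E D X m ↔
      Good W E D X m ∧ (def1 W E X m, def2 W E D X m) = 0 := by
  rw [Leading, ranks_iff hD hX h2 hm, Prod.mk_eq_zero]
  constructor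
  · rintro ⟨⟨h1, h3⟩, h4⟩
    exact ⟨h1, h3, (partIV_iff hper hX hm h1).1 h4⟩
  · rintro ⟨h1, h3, h4⟩
    exact ⟨⟨h1, h3⟩, (partIV_iff hper hX hm h1).2 h4⟩

lemma partIVSq_of (hper : IsPeriod D L) (hX : E.Continues X) (hm : 1 ≤ m)
    (h : Good W E D X m) (h2 : def2 W E D X m + def2 W E D X m = 0) : LeadingSq W E D X m := by
  intro F hF r b b'
  have hlc := lc_ne_zero hX h.ord
  have hp : (D.per X m : ℂ) ≠ 0 := by exact_mod_cast hper.ne_zero X m
  have hdet : ((Matrix.of fun i j => D.ht X (b i) (b' j)).det : ℂ) ≠ 0 := by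
    exact_mod_cast h.inj.det_ne_zero b b'
  rw [← lc_eq hm hF]
  have h3 : cls (lc E X m ^ 2) = cls ((D.per X m *
      ((Matrix.of fun i j => D.ht X (b i) (b' j)).det : ℂ)) ^ 2) := by
    rw [pow_two, pow_two, cls_mul hlc hlc, cls_mul (mul_ne_zero hp hdet) (mul_ne_zero hp hdet),
      cls_mul hp hdet]
    rw [def2, detc_eq b b', ← ofMul_mul, ofMul_eq_zero] at h2
    set a := cls (lc E X m)
    set c := cls (D.per X m)
    set d := cls ((Matrix.of fun i j => D.ht X (b i) (b' j)).det : ℝ)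
    have h5 : a * a = (a * (c * d)⁻¹ * (a * (c * d)⁻¹)) * (c * d * (c * d)) := by
      rw [mul_mul_mul_comm a (c * d)⁻¹ a (c * d)⁻¹, mul_assoc (a * a),
        ← mul_inv (c * d) (c * d), inv_mul_cancel, mul_one]
    rw [h5, h2, one_mul]
  have h4 := (cls_eq_iff (pow_ne_zero 2 hlc) (pow_ne_zero 2 (mul_ne_zero hp hdet))).1 h3
  push_cast
  exact h4

end Iff

section Final

variable (hC : C.Polarized) (hE : E.Basic) (hLef : E.Lefschetz) (hD : IsHeight W D)
  (hL : IsLine C E L) (hper : IsPeriod D L) (S : Set 𝒱.Obj) (hS : ∀ X ∈ S, X.prod L ∈ S)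
  (hH2 : ∀ X, D.H2 X → D.H2 (X.prod L))
include hC hE hLef hD hL hper hS hH2

omit hper in
lemma hyp1 (a : ℤ) (h : OnDiagonal (Ranks W E D) (Adm E D S) a) :
    ∀ X i, (sys1 hC hE hD hL S hS hH2).dim X + (-a) = 2 * i →
      (sys1 hC hE hD hL S hS hH2).G X i ∧ (sys1 hC hE hD hL S hS hH2).e X i = 0 := by
  intro X i hi
  change (X.1.dim : ℤ) + (-a) = 2 * i at hi
  change Good W E D X.1 i.toNat ∧ def1 W E X.1 i.toNat = 0
  by_cases hi0 : i ≤ 0
  · rw [Int.toNat_of_nonpos hi0]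
    exact ⟨good_of hC hE (Or.inl rfl), def1_of hC hE (Or.inl rfl)⟩
  · exact (ranks_iff hD X.2.2.1 X.2.2.2 (by omega)).1
      (h X.1 X.2 i.toNat (by omega) (by omega))

omit hLef in
lemma hyp2 (a : ℤ) (h : OnDiagonal (Leading W E D) (Adm E D S) a) :
    ∀ X i, (sys2 hC hE hD hL hper S hS hH2).dim X + (-a) = 2 * i →
      (sys2 hC hE hD hL hper S hS hH2).G X i ∧ (sys2 hC hE hD hL hper S hS hH2).e X i = 0 := by
  intro X i hi
  change (X.1.dim : ℤ) + (-a) = 2 * i at hi
  change Good W E D X.1 i.toNat ∧ (def1 W E X.1 i.toNat, def2 W E D X.1 i.toNat) = 0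
  by_cases hi0 : i ≤ 0
  · rw [Int.toNat_of_nonpos hi0]
    exact ⟨good_of hC hE (Or.inl rfl), Prod.ext (def1_of hC hE (Or.inl rfl))
      (def2_of hC hE hper (Or.inl rfl))⟩
  · exact (leading_iff hD hper X.2.2.1 X.2.2.2 (by omega)).1
      (h X.1 X.2 i.toNat (by omega) (by omega))

omit hper hH2 hS hL hD hLef in
lemma toNat_dual (X : 𝒱.Obj) (i : ℤ) :
    ((X.dim : ℤ) + 1 - i).toNat = X.dim + 1 - i.toNat ∨ i.toNat = 0 ∧
      X.dim < ((X.dim : ℤ) + 1 - i).toNat := by
  by_cases hi : 0 ≤ i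
  · left
    omega
  · right
    omega

omit hper in
theorem ranks_of_diag (a : ℤ) (h : OnDiagonal (Ranks W E D) (Adm E D S) a) :
    Everywhere (Ranks W E D) (Adm E D S) := by
  intro X hX m hm
  have key := (sys1 hC hE hD hL S hS hH2).one (-a) (hyp1 hC hE hLef hD hL S hS hH2 a h) (by
    intro Y i hG
    change def1 W E Y.1 i.toNat = def1 W E Y.1 ((Y.1.dim : ℤ) + 1 - i).toNat
    rcases toNat_dual hC hE Y.1 i with h1 | ⟨h1, h2⟩
    · rw [h1]
      exact (def1_dual hC hE hLef Y.2.2.1 hG).symm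
    · rw [def1_of hC hE (Or.inl h1), def1_of hC hE (Or.inr h2)]) ⟨X, hX⟩ m
  change Good W E D X (m : ℤ).toNat ∧ def1 W E X (m : ℤ).toNat + def1 W E X (m : ℤ).toNat = 0 ∧ _
    at key
  rw [Int.toNat_natCast] at key
  rw [ranks_iff hD hX.2.1 hX.2.2 hm]
  exact ⟨key.1, by have := key.2.1; omega⟩

lemma key2 (a : ℤ) (h : OnDiagonal (Leading W E D) (Adm E D S) a) {X : 𝒱.Obj}
    (hX : X ∈ Adm E D S) (m : ℕ) : Good W E D X m ∧
      (def1 W E X m, def2 W E D X m) + (def1 W E X m, def2 W E D X m) = 0 ∧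
      (a ≠ -1 → (def1 W E X m, def2 W E D X m) = 0) := by
  have key := (sys2 hC hE hD hL hper S hS hH2).one (-a) (hyp2 hC hE hD hL hper S hS hH2 a h) (by
    intro Y i hG
    change (def1 W E Y.1 i.toNat, def2 W E D Y.1 i.toNat) =
      (def1 W E Y.1 ((Y.1.dim : ℤ) + 1 - i).toNat, def2 W E D Y.1 ((Y.1.dim : ℤ) + 1 - i).toNat)
    rcases toNat_dual hC hE Y.1 i with h1 | ⟨h1, h2⟩
    · rw [h1]
      exact Prod.ext (def1_dual hC hE hLef Y.2.2.1 hG).symm
        (def2_dual hC hE hLef hD hper Y.2.2.1 Y.2.2.2 _).symm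
    · rw [def1_of hC hE (Or.inl h1), def1_of hC hE (Or.inr h2), def2_of hC hE hper (Or.inl h1),
        def2_of hC hE hper (Or.inr h2)]) ⟨X, hX⟩ m
  change Good W E D X (m : ℤ).toNat ∧ (def1 W E X (m : ℤ).toNat, def2 W E D X (m : ℤ).toNat) +
    (def1 W E X (m : ℤ).toNat, def2 W E D X (m : ℤ).toNat) = 0 ∧
    (-a ≠ 1 → (def1 W E X (m : ℤ).toNat, def2 W E D X (m : ℤ).toNat) = 0) at key
  rw [Int.toNat_natCast] at key
  exact ⟨key.1, key.2.1, fun ha => key.2.2 (by omega)⟩

theorem leading_of_diag (a : ℤ) (ha : a ≠ -1) (h : OnDiagonal (Leading W E D) (Adm E D S) a) :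
    Everywhere (Leading W E D) (Adm E D S) := by
  intro X hX m hm
  have := key2 hC hE hLef hD hL hper S hS hH2 a h hX m
  rw [leading_iff hD hper hX.2.1 hX.2.2 hm]
  exact ⟨this.1, this.2.2 ha⟩

theorem sq_of_center (h : OnDiagonal (Leading W E D) (Adm E D S) (-1)) :
    Everywhere (LeadingSq W E D) (Adm E D S) := by
  intro X hX m hm
  have := key2 hC hE hLef hD hL hper S hS hH2 (-1) h hX m
  exact partIVSq_of hper hX.2.1 hm this.1 (congrArg Prod.snd this.2.1)

end Final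

end Pool.Agent.R904.HB
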